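import Pool.Agent.Lib.MP_60f107_co.CrFinal

/-!
Adding one edge to a graph with `m` edges increases the crossing number by at most `c m`, where
`c < 1` is an absolute constant.
-/

namespace Pool.Agent.Results.MP_60f107_co.AddEdge

open MP60f107

/-- There is a constant `c < 1` such that `cr (G + uv) ≤ cr G + c * m` for every finite simple graph
`G` with `m` edges and every pair of distinct non-adjacent vertices `u`, `v`. -/
theorem result : ∃ c : ℝ, c < 1 ∧ ∀ (V : Type) [Fintype V] (G : SimpleGraph V) (u v : V),
    u ≠ v → ¬ G.Adj u v →
    (cr (G ⊔ SimpleGraph.edge u v) : ℝ) ≤ cr G + c * G.edgeSet.ncard := main_cr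

end Pool.Agent.Results.MP_60f107_co.AddEdge
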